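import Pool.Agent.Lib.helper15.SimpRef

set_option autoImplicit false

open Pool.Agent.Lib.helper15.SimpRef

namespace Pool.Agent.Results.MP_902647_gt.Counter

theorem result : ∃ (C : Set (Fin 4 → ℝ)) (T : Set (Fin 4 ⊕ Fin 4 → ℝ)),
    IsPolytope C ∧ (∀ n, ¬IsSimplex C n) ∧ (C.extremePoints ℝ).ncard = 12 ∧ IsSimplex T 8 ∧
      (T.extremePoints ℝ).ncard < (C.extremePoints ℝ).ncard ∧
      ∃ D f D' g, Refines T C D f D' g := by
  have h := simplex_std (n := 8) (finSumFinEquiv (m := 4) (n := 4)).symm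
  have e : ((C (Fin 4)).extremePoints ℝ).ncard = 12 := by simp [card_extreme]
  refine ⟨C _, _, poly, not_simplex (by norm_num), e, h, ?_, _, _, refines⟩
  simpa [e] using (simplex_card h).trans_lt (by simp : _ < 12)

end Pool.Agent.Results.MP_902647_gt.Counter
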